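import Pool.Agent.H.MP_a22eb7_al.E

set_option autoImplicit false

namespace Pool.Agent.Results.MP_81321e_al.Subgroups

theorem result (M : Type) [Monoid M] (K : Type) [Field K]
    (hG : ∀ (G : Type) [Group G] (f : G →ₙ* M), Function.Injective f → ∀ F : Finset G,
      ∃ (L : Type) (_ : Group L) (ρ : G →* L),
        (∀ s : Finset L, Finite (Subgroup.closure (s : Set L))) ∧ Set.InjOn ρ F)
    (d : ℕ) (hd : 1 ≤ d)
    (h : ∀ a b : Matrix (Fin d) (Fin d) (MonoidAlgebra K M), a * b = 1 → b * a = 1)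
    (n : ℕ) (A B : Matrix (Fin n) (Fin n) (MonoidAlgebra K M)) (hAB : A * B = 1) : B * A = 1 :=
  Pool.Agent.H.MP_a22eb7_al.anyp (Pool.Agent.H.MP_a22eb7_al.cb (Pool.Agent.H.MP_a22eb7_al.df_of hd h)) hG hAB

end Pool.Agent.Results.MP_81321e_al.Subgroups
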